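import Mathlib

namespace Pool.Agent.H.MP_b004e2_gt

open Set Metric Topology

section rigid
variable {K : Type*} [MetricSpace K] [CompactSpace K]

/-- two disjoint closed balls have different minima -/
def sepSet (a b : K) (r s : ℝ) : Set C(K, ℝ) :=
  {g | Disjoint (closedBall a r) (closedBall b s) →
    ∃ c > 0, (∃ x ∈ closedBall a r, ∀ y ∈ closedBall b s, g x + c ≤ g y) ∨
      (∃ y ∈ closedBall b s, ∀ x ∈ closedBall a r, g y + c ≤ g x)}

lemma near (g h : C(K, ℝ)) {e : ℝ} (hd : dist h g < e) (x : K) :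
    g x - e < h x ∧ h x < g x + e := by
  have h1 := ContinuousMap.dist_apply_le_dist (f := h) (g := g) x
  rw [Real.dist_eq] at h1
  have := abs_lt.1 (lt_of_le_of_lt h1 hd)
  constructor <;> linarith [this.1, this.2]

lemma sepSet_open (a b : K) (r s : ℝ) : IsOpen (sepSet a b r s) := by
  rw [Metric.isOpen_iff]
  intro g hg
  by_cases hd : Disjoint (closedBall a r) (closedBall b s)
  · obtain ⟨c, hc, h⟩ := hg hd
    refine ⟨c / 3, by positivity, fun h' hh _ => ⟨c / 3, by positivity, ?_⟩⟩
    rcases h with ⟨x, hx, h⟩ | ⟨y, hy, h⟩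
    · left
      refine ⟨x, hx, fun y hy => ?_⟩
      have := near g h' hh x
      have := near g h' hh y
      have := h y hy
      linarith
    · right
      refine ⟨y, hy, fun x hx => ?_⟩
      have := near g h' hh x
      have := near g h' hh y
      have := h x hx
      linarith
  · exact ⟨1, one_pos, fun h' _ h => absurd h hd⟩

lemma sepSet_dense (a b : K) (r s : ℝ) (hr : 0 < r) (hs : 0 < s) : Dense (sepSet a b r s) := by
  rw [Metric.dense_iff]
  intro g e he
  by_cases hd : Disjoint (closedBall a r) (closedBall b s)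
  · obtain ⟨x, hx, hxm⟩ := (isCompact_closedBall a r).exists_isMinOn
      (nonempty_closedBall.2 hr.le) g.continuous.continuousOn
    obtain ⟨y, hy, hym⟩ := (isCompact_closedBall b s).exists_isMinOn
      (nonempty_closedBall.2 hs.le) g.continuous.continuousOn
    rcases lt_trichotomy (g x) (g y) with h | h | h
    · refine ⟨g, mem_ball_self he, fun _ => ⟨g y - g x, by linarith, Or.inl ⟨x, hx, fun z hz => ?_⟩⟩⟩
      have : g y ≤ g z := hym hz
      linarith
    · obtain ⟨φ, h0, h1, h01⟩ := exists_continuous_zero_one_of_isClosed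
        (isClosed_closedBall (x := a) (ε := r)) (isClosed_closedBall (x := b) (ε := s)) hd
      refine ⟨g + (e / 2) • φ, ?_, fun _ => ⟨e / 2, by positivity, Or.inl ⟨x, hx, fun z hz => ?_⟩⟩⟩
      · rw [mem_ball, dist_eq_norm, add_sub_cancel_left]
        have : ‖(e / 2) • φ‖ ≤ e / 2 := by
          rw [ContinuousMap.norm_le _ (by positivity)]
          intro t
          have := h01 t
          simp only [ContinuousMap.smul_apply, smul_eq_mul, Real.norm_eq_abs]
          rw [abs_of_nonneg (mul_nonneg (by positivity) this.1)]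
          nlinarith [this.2]
        linarith
      · have e1 : φ x = 0 := h0 hx
        have e2 : φ z = 1 := h1 hz
        have : g y ≤ g z := hym hz
        simp only [ContinuousMap.add_apply, ContinuousMap.smul_apply, smul_eq_mul, e1, e2]
        linarith
    · refine ⟨g, mem_ball_self he, fun _ => ⟨g x - g y, by linarith, Or.inr ⟨y, hy, fun z hz => ?_⟩⟩⟩
      have : g x ≤ g z := hxm hz
      linarith
  · exact ⟨g, mem_ball_self he, fun h => absurd h hd⟩

/-- a well at `a` of radius below `r` -/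
def wellSet (a : K) (r : ℝ) : Set C(K, ℝ) :=
  {g | ∃ s, 0 < s ∧ s < r ∧ ∃ c > 0, ∀ y, dist y a = s → g a + c ≤ g y}

lemma wellSet_open (a : K) (r : ℝ) : IsOpen (wellSet a r) := by
  rw [Metric.isOpen_iff]
  rintro g ⟨s, hs, hsr, c, hc, h⟩
  refine ⟨c / 3, by positivity, fun h' hh => ⟨s, hs, hsr, c / 3, by positivity, fun y hy => ?_⟩⟩
  have := near g h' hh a
  have := near g h' hh y
  have := h y hy
  linarith

lemma wellSet_dense (a : K) (r : ℝ) (hr : 0 < r) : Dense (wellSet a r) := by
  rw [Metric.dense_iff]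
  intro g e he
  obtain ⟨d, hd, hg⟩ := Metric.continuousAt_iff.1 (g.continuous.continuousAt (x := a)) (e / 4)
    (by positivity)
  obtain ⟨s, hs0, hsd, hsr⟩ : ∃ s, 0 < s ∧ s < d ∧ s < r :=
    ⟨min d r / 2, by positivity, by linarith [min_le_left d r, lt_min hd hr],
      by linarith [min_le_right d r, lt_min hd hr]⟩
  let φ : C(K, ℝ) := ⟨fun y => min (dist y a / s) 1, by fun_prop⟩
  refine ⟨g + (e / 2) • φ, ?_, s, hs0, hsr, e / 4, by positivity, fun y hy => ?_⟩
  · rw [mem_ball, dist_eq_norm, add_sub_cancel_left]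
    have : ‖(e / 2) • φ‖ ≤ e / 2 := by
      rw [ContinuousMap.norm_le _ (by positivity)]
      intro t
      have h0 : 0 ≤ φ t := le_min (by positivity) zero_le_one
      have h1 : φ t ≤ 1 := min_le_right _ _
      simp only [ContinuousMap.smul_apply, smul_eq_mul, Real.norm_eq_abs]
      rw [abs_of_nonneg (mul_nonneg (by positivity) h0)]
      nlinarith
    linarith
  · have e1 : φ a = 0 := by simp [φ]
    have e2 : φ y = 1 := by
      show min (dist y a / s) 1 = 1
      rw [hy, div_self hs0.ne', min_self]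
    have := hg (x := y) (by rw [hy]; exact hsd)
    rw [Real.dist_eq] at this
    have := abs_lt.1 this
    simp only [ContinuousMap.add_apply, ContinuousMap.smul_apply, smul_eq_mul, e1, e2]
    linarith [this.1]

lemma well_localMin {a : K} {r : ℝ} {g : C(K, ℝ)} (h : g ∈ wellSet a r) :
    ∃ x, dist x a < r ∧ IsLocalMin g x := by
  obtain ⟨s, hs, hsr, c, hc, h⟩ := h
  obtain ⟨x, hx, hxm⟩ := (isCompact_closedBall a s).exists_isMinOn
    (nonempty_closedBall.2 hs.le) g.continuous.continuousOn
  have hxa : g x ≤ g a := hxm (mem_closedBall_self hs.le)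
  have hlt : dist x a < s := by
    rcases (mem_closedBall.1 hx).lt_or_eq with h' | h'
    · exact h'
    · have := h x h'
      linarith
  refine ⟨x, hlt.trans hsr, ?_⟩
  exact hxm.isLocalMin (Filter.mem_of_superset (isOpen_ball.mem_nhds hlt) ball_subset_closedBall)

theorem exists_rigid : ∃ g : C(K, ℝ), ∀ T : K ≃ₜ K, (∀ p, g (T p) = g p) → ∀ p, T p = p := by
  obtain ⟨D, hDc, hD⟩ := TopologicalSpace.exists_countable_dense K
  have : Countable D := hDc.to_subtype
  let F : D × D × ℕ → Set C(K, ℝ) := fun i =>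
    sepSet (i.1 : K) (i.2.1 : K) (1 / ((i.2.2 : ℝ) + 1)) (1 / ((i.2.2 : ℝ) + 1)) ∩
      wellSet (i.1 : K) (1 / ((i.2.2 : ℝ) + 1))
  have hdense : Dense (⋂ i, F i) := by
    refine dense_iInter_of_isOpen (fun i => (sepSet_open _ _ _ _).inter (wellSet_open _ _))
      fun i => ?_
    exact (sepSet_dense _ _ _ _ (by positivity) (by positivity)).inter_of_isOpen_left
      (wellSet_dense _ _ (by positivity)) (sepSet_open _ _ _ _)
  obtain ⟨g, hg⟩ := hdense.nonempty
  rw [mem_iInter] at hg
  refine ⟨g, fun T hT => ?_⟩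
  have key : ∀ x y, IsLocalMin g x → IsLocalMin g y → g x = g y → x = y := by
    intro x y hx hy hxy
    by_contra hne
    obtain ⟨d1, hd1, h1⟩ := Metric.eventually_nhds_iff.1 hx
    obtain ⟨d2, hd2, h2⟩ := Metric.eventually_nhds_iff.1 hy
    have hpos : 0 < dist x y := dist_pos.2 hne
    obtain ⟨n, hn⟩ := exists_nat_one_div_lt (K := ℝ)
      (show 0 < min (min d1 d2) (dist x y) / 4 by positivity)
    obtain ⟨r, hr⟩ : ∃ r : ℝ, r = 1 / ((n : ℝ) + 1) := ⟨_, rfl⟩
    have hr0 : 0 < r := by rw [hr]; positivity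
    rw [← hr] at hn
    have m1 : min (min d1 d2) (dist x y) ≤ d1 := (min_le_left _ _).trans (min_le_left _ _)
    have m2 : min (min d1 d2) (dist x y) ≤ d2 := (min_le_left _ _).trans (min_le_right _ _)
    have m3 : min (min d1 d2) (dist x y) ≤ dist x y := min_le_right _ _
    obtain ⟨a, haD, ha⟩ := hD.exists_dist_lt x hr0
    obtain ⟨b, hbD, hb⟩ := hD.exists_dist_lt y hr0
    have hs := (hg (⟨a, haD⟩, ⟨b, hbD⟩, n)).1
    simp only [← hr] at hs
    have hdisj : Disjoint (closedBall a r) (closedBall b r) := by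
      rw [Set.disjoint_left]
      intro z hz1 hz2
      rw [mem_closedBall] at hz1 hz2
      have t1 := dist_triangle4 x a z y
      have t2 := dist_triangle z b y
      rw [dist_comm a z] at t1
      rw [dist_comm b y] at t2
      linarith
    obtain ⟨c, hc, ⟨u, hu, h⟩ | ⟨u, hu, h⟩⟩ := hs hdisj
    · have e1 := h y (mem_closedBall.2 hb.le)
      have e2 : g x ≤ g u := h1 (by
        have t := dist_triangle u a x
        rw [dist_comm a x] at t
        linarith [mem_closedBall.1 hu])
      linarith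
    · have e1 := h x (mem_closedBall.2 ha.le)
      have e2 : g y ≤ g u := h2 (by
        have t := dist_triangle u b y
        rw [dist_comm b y] at t
        linarith [mem_closedBall.1 hu])
      linarith
  have hfix : ∀ x, IsLocalMin g x → T x = x := by
    intro x hx
    refine key _ _ ?_ hx (hT x)
    have h1 : IsLocalMin (g ∘ T.symm) (T x) := by
      refine IsLocalMin.comp_continuous ?_ T.symm.continuous.continuousAt
      rwa [T.symm_apply_apply]
    have h2 : (g ∘ T.symm : K → ℝ) = g := by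
      funext p
      have := hT (T.symm p)
      rw [T.apply_symm_apply] at this
      exact this.symm
    rwa [h2] at h1
  have hdm : Dense {x | IsLocalMin g x} := by
    rw [Metric.dense_iff]
    intro p e he
    obtain ⟨n, hn⟩ := exists_nat_one_div_lt (K := ℝ) (half_pos he)
    obtain ⟨a, haD, ha⟩ := hD.exists_dist_lt p (half_pos he)
    obtain ⟨x, hx, hm⟩ := well_localMin (hg (⟨a, haD⟩, ⟨a, haD⟩, n)).2
    refine ⟨x, ?_, hm⟩
    have t := dist_triangle x a p
    rw [dist_comm a p] at t
    rw [mem_ball]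
    simp only at hx
    linarith
  have : (T : K → K) = id :=
    Continuous.ext_on hdm T.continuous continuous_id fun x hx => hfix x hx
  intro p
  exact congrFun this p

end rigid

section sum
variable {M K : Type*} [TopologicalSpace M] [TopologicalSpace K]

lemma conn_side {A : Set (M ⊕ K)} (hA : IsPreconnected A) :
    A ⊆ range Sum.inl ∨ A ⊆ range Sum.inr := by
  refine hA.subset_or_subset isOpen_range_inl isOpen_range_inr ?_ ?_
  · exact Set.isCompl_range_inl_range_inr.disjoint
  · rw [Set.range_inl_union_range_inr]; exact subset_univ _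

lemma maps_inr [ConnectedSpace M] [NoncompactSpace M] [ConnectedSpace K] [CompactSpace K]
    (T : M ⊕ K ≃ₜ M ⊕ K) (k : K) : T (Sum.inr k) ∈ range Sum.inr := by
  have hA : IsPreconnected (T '' range (Sum.inr : K → M ⊕ K)) :=
    (isPreconnected_range continuous_inr).image _ T.continuous.continuousOn
  rcases conn_side hA with h | h
  · exfalso
    have hclopen : IsClopen (T '' range (Sum.inr : K → M ⊕ K)) :=
      ⟨T.isClosedMap _ isClosed_range_inr, T.isOpenMap _ isOpen_range_inr⟩
    have hc : IsCompact (T '' range (Sum.inr : K → M ⊕ K)) :=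
      (isCompact_range continuous_inr).image T.continuous
    have hpre : IsClopen ((Sum.inl : M → M ⊕ K) ⁻¹' (T '' range Sum.inr)) :=
      hclopen.preimage continuous_inl
    have hcpre : IsCompact ((Sum.inl : M → M ⊕ K) ⁻¹' (T '' range Sum.inr)) :=
      IsClosedEmbedding.inl.isCompact_preimage hc
    obtain ⟨m, hm⟩ := h ⟨Sum.inr k, ⟨k, rfl⟩, rfl⟩
    have hne : ((Sum.inl : M → M ⊕ K) ⁻¹' (T '' range Sum.inr)).Nonempty :=
      ⟨m, ⟨Sum.inr k, ⟨k, rfl⟩, hm.symm⟩⟩
    rw [hpre.eq_univ hne] at hcpre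
    exact noncompact_univ M hcpre
  · exact h ⟨Sum.inr k, ⟨k, rfl⟩, rfl⟩

lemma maps_inl [ConnectedSpace M] [NoncompactSpace M] [ConnectedSpace K] [CompactSpace K]
    (T : M ⊕ K ≃ₜ M ⊕ K) (m : M) : T (Sum.inl m) ∈ range Sum.inl := by
  have hA : IsPreconnected (T '' range (Sum.inl : M → M ⊕ K)) :=
    (isPreconnected_range continuous_inl).image _ T.continuous.continuousOn
  rcases conn_side hA with h | h
  · exact h ⟨Sum.inl m, ⟨m, rfl⟩, rfl⟩
  · exfalso
    obtain ⟨k, hk⟩ := h ⟨Sum.inl m, ⟨m, rfl⟩, rfl⟩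
    obtain ⟨k', hk'⟩ := maps_inr T.symm k
    rw [hk, T.symm_apply_apply] at hk'
    exact Sum.inr_ne_inl hk'

lemma restrict {X Y : Type*} [TopologicalSpace X] [TopologicalSpace Y] {i : X → Y}
    (hi : IsEmbedding i) (T : Y ≃ₜ Y) (h1 : ∀ x, T (i x) ∈ range i)
    (h2 : ∀ x, T.symm (i x) ∈ range i) : ∃ S : X ≃ₜ X, ∀ x, i (S x) = T (i x) := by
  choose a ha using h1
  choose b hb using h2
  refine ⟨⟨⟨a, b, fun x => hi.injective ?_, fun x => hi.injective ?_⟩, ?_, ?_⟩, ha⟩
  · rw [hb, ha, T.symm_apply_apply]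
  · rw [ha, hb, T.apply_symm_apply]
  · rw [hi.continuous_iff]
    have : i ∘ a = T ∘ i := funext ha
    show Continuous (i ∘ a)
    rw [this]
    exact T.continuous.comp hi.continuous
  · rw [hi.continuous_iff]
    have : i ∘ b = T.symm ∘ i := funext hb
    show Continuous (i ∘ b)
    rw [this]
    exact T.symm.continuous.comp hi.continuous

theorem split [ConnectedSpace M] [NoncompactSpace M] [ConnectedSpace K] [CompactSpace K]
    (T : M ⊕ K ≃ₜ M ⊕ K) : ∃ (S : M ≃ₜ M) (R : K ≃ₜ K),
      (∀ m, Sum.inl (S m) = T (Sum.inl m)) ∧ ∀ k, Sum.inr (R k) = T (Sum.inr k) := by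
  obtain ⟨S, hS⟩ := restrict IsEmbedding.inl T (maps_inl T) (maps_inl T.symm)
  obtain ⟨R, hR⟩ := restrict IsEmbedding.inr T (maps_inr T) (maps_inr T.symm)
  exact ⟨S, R, hS, hR⟩

theorem not_homeo [ConnectedSpace M] [Nonempty K] : IsEmpty (M ≃ₜ M ⊕ K) := by
  refine ⟨fun e => ?_⟩
  have : ConnectedSpace (M ⊕ K) := e.surjective.connectedSpace e.continuous
  obtain ⟨m⟩ : Nonempty M := inferInstance
  obtain ⟨k⟩ : Nonempty K := inferInstance
  rcases conn_side (isPreconnected_univ (α := M ⊕ K)) with h | h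
  · obtain ⟨_, h'⟩ := h (mem_univ (Sum.inr k))
    exact Sum.inl_ne_inr h'
  · obtain ⟨_, h'⟩ := h (mem_univ (Sum.inl m))
    exact Sum.inr_ne_inl h'

end sum

end Pool.Agent.H.MP_b004e2_gt
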